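import Pool.Agent.H52.ER2.LFM

/-!
# MP_816b90_co: without outer path a good pair of the neighbourhood is a good pair
-/

set_option autoImplicit false

namespace Pool.Agent.H52.ER2

open Pool.Agent.H48.ER

variable {V : Type}

/-- without outer path, a chordless path between two neighbours of `v` which avoids `v` stays in
the neighbourhood of `v` -/
theorem no_outer {G : SimpleGraph V} {v : V} (hO : NOut G v) {n : ℕ} {x y : V} {R : Set V}
    (h : IP G n x y R) (hv : v ∉ R) (h1 : G.Adj v x) (h2 : G.Adj v y) :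
    ∀ w ∈ R, G.Adj v w := by
  obtain ⟨g, g0, gn, gi, ga, hR⟩ := h
  have hvg : ∀ i, i ≤ n → g i ≠ v := fun i hi e => hv (by rw [hR]; exact ⟨i, hi, e⟩)
  intro w hw
  rw [hR] at hw
  obtain ⟨i, hi, rfl⟩ := hw
  by_contra hna
  classical
  -- the last neighbour before `i`
  have hex1 : ∃ s, s ≤ i ∧ G.Adj v (g (i - s)) :=
    ⟨i, le_rfl, by rw [Nat.sub_self, g0]; exact h1⟩
  have hex2 : ∃ t, i ≤ t ∧ t ≤ n ∧ G.Adj v (g t) := ⟨n, hi, le_rfl, by rw [gn]; exact h2⟩
  obtain ⟨hs1, hs2⟩ := Nat.find_spec hex1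
  obtain ⟨ht1, ht2, ht3⟩ := Nat.find_spec hex2
  set s := i - Nat.find hex1 with hs
  set t := Nat.find hex2 with ht
  have hsi : s < i := by
    by_contra h
    have e : s = i := by omega
    rw [e] at hs2
    exact hna hs2
  have hit : i < t := by
    by_contra h
    have e : t = i := by omega
    rw [e] at ht3
    exact hna ht3
  have hin : ∀ k, s < k → k < t → ¬ G.Adj v (g k) := by
    intro k hk1 hk2 hk
    by_cases hki : k ≤ i
    · have := Nat.find_min hex1 (m := i - k) (by omega)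
      apply this
      refine ⟨by omega, ?_⟩
      have e : i - (i - k) = k := by omega
      rw [e]
      exact hk
    · exact Nat.find_min hex2 hk2 ⟨by omega, by omega, hk⟩
  refine hO (t - s) (g s) (g t) {v | ∃ j, j ≤ t - s ∧ g (s + j) = v}
    ⟨⟨fun j => g (s + j), rfl, ?_, ?_, ?_, rfl⟩, by omega, ?_, hs2, ht3, ?_⟩
  · show g (s + (t - s)) = g t
    congr 1
    omega
  · intro j k hj hk e
    have := gi _ _ (by omega) (by omega) e
    omega
  · intro j k hj hk
    show G.Adj (g (s + j)) (g (s + k)) ↔ _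
    rw [ga _ _ (by omega) (by omega)]
    omega
  · rintro ⟨j, hj, e⟩
    exact hvg _ (by omega) e
  · rintro _ ⟨j, hj, rfl⟩ hadj
    by_cases e1 : j = 0
    · left
      rw [e1]
      rfl
    · by_cases e2 : j = t - s
      · right
        rw [e2]
        congr 1
        omega
      · exact absurd hadj (hin (s + j) (by omega) (by omega))

/-- both ends added to a path -/
theorem ends {G : SimpleGraph V} {n : ℕ} {x y u w : V} {T : Set V} (h : IP G n u w T)
    (hx : x ∉ T) (hy : y ∉ T) (hxy : x ≠ y) (hna : ¬ G.Adj x y)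
    (h1 : ∀ g ∈ T, G.Adj x g ↔ g = u) (h2 : ∀ g ∈ T, G.Adj y g ↔ g = w) :
    IP G (n + 1 + 1) x y (insert x (insert y T)) := by
  refine (h.snoc hy h2).cons ?_ ?_
  · rintro (e | e)
    · exact hxy e
    · exact hx e
  · rintro g (rfl | hg)
    · exact ⟨fun e => absurd e hna, fun e => absurd (by rw [e]; exact h.left_mem) hy⟩
    · exact h1 g hg

/-- a path whose ends are seen by `x` and by `y` is in the neighbourhood of `v` -/
theorem cover {G : SimpleGraph V} {v x y : V} (hO : NOut G v) (hvx : G.Adj v x)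
    (hvy : G.Adj v y) (hxy : x ≠ y) (hna : ¬ G.Adj x y) {n : ℕ} {u w : V} {T : Set V}
    (h : IP G n u w T) (hx : x ∉ T) (hy : y ∉ T) (hv : v ∉ T)
    (h12 : ((∀ g ∈ T, G.Adj x g ↔ g = u) ∧ ∀ g ∈ T, G.Adj y g ↔ g = w) ∨
      ((∀ g ∈ T, G.Adj y g ↔ g = u) ∧ ∀ g ∈ T, G.Adj x g ↔ g = w)) :
    ∀ g ∈ T, G.Adj v g := by
  have hv' : v ∉ insert x (insert y T) := by
    rintro (e | e | e)
    · exact hvx.ne e
    · exact hvy.ne e
    · exact hv e
  intro g hg
  rcases h12 with ⟨h1, h2⟩ | ⟨h1, h2⟩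
  · exact no_outer hO (ends h hx hy hxy hna h1 h2) hv' hvx hvy g (Or.inr (Or.inr hg))
  · exact no_outer hO (ends h.rev hx hy hxy hna h2 h1) hv' hvx hvy g (Or.inr (Or.inr hg))

section prism

variable {G : SimpleGraph V} {v x y : V} {a b : Fin 3 → V} {n : Fin 3 → ℕ} {P : Fin 3 → Set V}

/-- the new vertex is a corner -/
theorem cov_corner (hG : Cls G) (hO : NOut G v) (hvx : G.Adj v x) (hvy : G.Adj v y)
    (hev : EvP G x y) (h : Prism (ctr G x y) a b n P) (hodd : ∀ i, Odd (n i)) (hvP : v ∉ ver P)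
    (i j : Fin 3) (hij : j ≠ i) (hx : x = a i) : ∀ g, g ∈ P i ∨ g ∈ P j → g ≠ x → G.Adj v g := by
  obtain ⟨hyP, r, m, R, hR, hxR, hPi, hm, hnb⟩ := c_SPC V G x y a b n P i hG.noh hG.nop hev h hodd hx
  have hRP : ∀ g ∈ R, g ∈ P i := fun g hg => by rw [hPi]; exact Or.inr hg
  have hxPi : x ∈ P i := by rw [hPi]; exact Or.inl rfl
  have hxj : x ∉ P j := fun e => hij (h.rung e hxPi)
  have hne : ∀ g ∈ P j, g ≠ x ∧ g ≠ y := fun g hg =>
    ⟨fun e => hxj (e ▸ hg), fun e => hyP (e ▸ mem_ver hg)⟩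
  have hneR : ∀ g ∈ R, g ≠ x ∧ g ≠ y := fun g hg =>
    ⟨fun e => hxR (e ▸ hg), fun e => hyP (e ▸ mem_ver (hRP g hg))⟩
  have hPj : IP G (n j) (a j) (b j) (P j) := (h.ip j).congr fun c hc d hd =>
    (ctr_adj_of_ne (hne c hc).1 (hne c hc).2 (hne d hd).1 (hne d hd).2).symm
  have hd : Disjoint (P j) R := (h.dis j i hij).mono_right fun g hg => hRP g hg
  have hXE : XE G (P j) R (b j) (b i) := by
    intro c hc d hd
    have h1 := h.adj j i hij c hc d (hRP d hd)
    rw [ctr_adj_of_ne (hne c hc).1 (hne c hc).2 (hneR d hd).1 (hneR d hd).2] at h1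
    rw [h1]
    constructor
    · rintro (⟨_, e⟩ | e)
      · exact absurd (e.trans hx.symm) (hneR d hd).1
      · exact e
    · exact fun e => Or.inr e
  have hT : IP G (n j + m + 1) (a j) r (P j ∪ R) := hPj.append hR.rev hd hXE
  have hver : ∀ g ∈ P j ∪ R, g ∈ ver P ∧ g ≠ x := by
    rintro g (hg | hg)
    · exact ⟨mem_ver hg, (hne g hg).1⟩
    · exact ⟨mem_ver (hRP g hg), (hneR g hg).1⟩
  have haj : ∀ g ∈ P j ∪ R, (∃ l, l ≠ i ∧ g = a l) ↔ g = a j := by
    intro g hg
    constructor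
    · rintro ⟨l, hl, rfl⟩
      rcases hg with hg | hg
      · rw [h.rung (h.a_mem l) hg]
      · exact absurd (h.rung (h.a_mem l) (hRP _ hg)) hl
    · intro e
      exact ⟨j, hij, e⟩
  have hcov := cover hO hvx hvy hev.1 hev.2.1 hT (fun e => (hver x e).2 rfl)
    (fun e => hyP (hver y e).1) (fun e => hvP (hver v e).1) (by
      rcases hnb with ⟨h1, h2⟩ | ⟨h1, h2⟩
      · left
        exact ⟨fun g hg => by rw [h1 g (hver g hg).1 (hver g hg).2, haj g hg],
          fun g hg => h2 g (hver g hg).1 (hver g hg).2⟩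
      · right
        exact ⟨fun g hg => by rw [h1 g (hver g hg).1 (hver g hg).2, haj g hg],
          fun g hg => h2 g (hver g hg).1 (hver g hg).2⟩)
  rintro g (hg | hg) hgx
  · rw [hPi] at hg
    exact hcov g (Or.inr (hg.resolve_left hgx))
  · exact hcov g (Or.inl hg)

/-- the new vertex is an interior vertex of a rung -/
theorem cov_inner (hG : Cls G) (hO : NOut G v) (hvx : G.Adj v x) (hvy : G.Adj v y)
    (hev : EvP G x y) (h : Prism (ctr G x y) a b n P) (hodd : ∀ i, Odd (n i)) (hvP : v ∉ ver P)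
    (i j : Fin 3) (hij : j ≠ i) (hxPi : x ∈ P i) (hxa : x ≠ a i) (hxb : x ≠ b i) :
    ∀ g, g ∈ P i ∨ g ∈ P j → g ≠ x → G.Adj v g := by
  obtain ⟨hyP, u, w, k, m, L, R, hL, hR, hxL, hxR, hPi, hkm, hLR, hNE, hnb⟩ :=
    c_SPI V G x y a b n P i hG.noh hG.nop hev h hodd hxPi hxa hxb
  have hLP : ∀ g ∈ L, g ∈ P i := fun g hg => by rw [hPi]; exact Or.inl (Or.inl hg)
  have hRP : ∀ g ∈ R, g ∈ P i := fun g hg => by rw [hPi]; exact Or.inr hg
  have hxj : x ∉ P j := fun e => hij (h.rung e hxPi)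
  have hne : ∀ g ∈ P j, g ≠ x ∧ g ≠ y := fun g hg =>
    ⟨fun e => hxj (e ▸ hg), fun e => hyP (e ▸ mem_ver hg)⟩
  have hneL : ∀ g ∈ L, g ≠ x ∧ g ≠ y := fun g hg =>
    ⟨fun e => hxL (e ▸ hg), fun e => hyP (e ▸ mem_ver (hLP g hg))⟩
  have hneR : ∀ g ∈ R, g ≠ x ∧ g ≠ y := fun g hg =>
    ⟨fun e => hxR (e ▸ hg), fun e => hyP (e ▸ mem_ver (hRP g hg))⟩
  have hPj : IP G (n j) (a j) (b j) (P j) := (h.ip j).congr fun c hc d hd =>
    (ctr_adj_of_ne (hne c hc).1 (hne c hc).2 (hne d hd).1 (hne d hd).2).symm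
  have hdL : Disjoint L (P j) := (h.dis i j hij.symm).mono_left fun g hg => hLP g hg
  have hdR : Disjoint (L ∪ P j) R :=
    Set.disjoint_union_left.2 ⟨hLR, (h.dis j i hij).mono_right fun g hg => hRP g hg⟩
  have hX1 : XE G L (P j) (a i) (a j) := by
    intro c hc d hd
    have h1 := h.adj i j hij.symm c (hLP c hc) d hd
    rw [ctr_adj_of_ne (hneL c hc).1 (hneL c hc).2 (hne d hd).1 (hne d hd).2] at h1
    rw [h1]
    constructor
    · rintro (e | ⟨e, _⟩)
      · exact e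
      · exact absurd hR.right_mem (Set.disjoint_left.1 hLR (e ▸ hc))
    · exact fun e => Or.inl e
  have hX2 : XE G (L ∪ P j) R (b j) (b i) := by
    rintro c (hc | hc) d hd
    · constructor
      · intro e
        exact absurd e (hNE c hc d hd)
      · rintro ⟨rfl, _⟩
        exact absurd (h.rung (h.b_mem j) (hLP _ hc)) hij
    · have h1 := h.adj j i hij c hc d (hRP d hd)
      rw [ctr_adj_of_ne (hne c hc).1 (hne c hc).2 (hneR d hd).1 (hneR d hd).2] at h1
      rw [h1]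
      constructor
      · rintro (⟨_, e⟩ | e)
        · exact absurd hd (Set.disjoint_left.1 hLR (e ▸ hL.left_mem))
        · exact e
      · exact fun e => Or.inr e
  have hT := (hL.rev.append hPj hdL hX1).append hR.rev hdR hX2
  have hver : ∀ g ∈ L ∪ P j ∪ R, g ∈ ver P ∧ g ≠ x := by
    rintro g ((hg | hg) | hg)
    · exact ⟨mem_ver (hLP g hg), (hneL g hg).1⟩
    · exact ⟨mem_ver hg, (hne g hg).1⟩
    · exact ⟨mem_ver (hRP g hg), (hneR g hg).1⟩
  have hcov := cover hO hvx hvy hev.1 hev.2.1 hT (fun e => (hver x e).2 rfl)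
    (fun e => hyP (hver y e).1) (fun e => hvP (hver v e).1) (by
      rcases hnb with ⟨h1, h2⟩ | ⟨h1, h2⟩
      · left
        exact ⟨fun g hg => h1 g (hver g hg).1 (hver g hg).2,
          fun g hg => h2 g (hver g hg).1 (hver g hg).2⟩
      · right
        exact ⟨fun g hg => h1 g (hver g hg).1 (hver g hg).2,
          fun g hg => h2 g (hver g hg).1 (hver g hg).2⟩)
  rintro g (hg | hg) hgx
  · rw [hPi] at hg
    rcases hg with (hg | hg) | hg
    · exact hcov g (Or.inl (Or.inl hg))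
    · exact absurd hg hgx
    · exact hcov g (Or.inr hg)
  · exact hcov g (Or.inl (Or.inr hg))

/-- the new odd prism is in the neighbourhood of `v` -/
theorem cov_prism (hG : Cls G) (hO : NOut G v) (hvx : G.Adj v x) (hvy : G.Adj v y)
    (hev : EvP G x y) (h : Prism (ctr G x y) a b n P) (hodd : ∀ i, Odd (n i)) :
    ∀ g ∈ ver P, G.Adj v g := by
  obtain ⟨⟨i, hxi⟩, _, hcom⟩ := c_W1 V G x y a b n P hG.noh hG.nop hev h hodd
  have hvP : v ∉ ver P := fun e => hcom v e ⟨hvx.symm, hvy.symm⟩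
  have key : ∀ j, j ≠ i → ∀ g, g ∈ P i ∨ g ∈ P j → g ≠ x → G.Adj v g := by
    intro j hj
    by_cases hxa : x = a i
    · exact cov_corner hG hO hvx hvy hev h hodd hvP i j hj hxa
    · by_cases hxb : x = b i
      · exact cov_corner hG hO hvx hvy hev h.flip hodd hvP i j hj hxb
      · exact cov_inner hG hO hvx hvy hev h hodd hvP i j hj hxi hxa hxb
  rintro g ⟨l, hl⟩
  by_cases hgx : g = x
  · rw [hgx]
    exact hvx
  by_cases hli : l = i
  · obtain ⟨j, hj⟩ : ∃ j : Fin 3, j ≠ i := exists_ne i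
    exact key j hj g (Or.inl (hli ▸ hl)) hgx
  · exact key l hli g (Or.inr hl) hgx

end prism

/-- G2: without outer path a good pair of the neighbourhood is a good pair -/
theorem pf_G2 (hCC : Pool.Agent.H48.ER2.T_CC) : T_G2 := by
  intro V _ G v x y hG hO hvx hvy hgd
  obtain ⟨⟨hxy, hna, hpath⟩, hcls⟩ := hgd
  have hna' : ¬ G.Adj x y := fun h => hna ⟨hvx, hvy, h⟩
  have hev : EvP G x y := by
    refine ⟨hxy, hna', ?_⟩
    intro n R hR
    by_cases hv : v ∈ R
    · rw [two_of_mid hR hxy hv hvx hvy]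
      decide
    · have hc := no_outer hO hR hv hvx hvy
      exact hpath n R (hR.congr fun c hc' d hd =>
        ⟨fun h => h.2.2, fun h => ⟨hc c hc', hc d hd, h⟩⟩)
  refine ⟨hev, hCC V G x y hG hev ?_⟩
  intro a b n P hP hodd
  have hc := cov_prism hG hO hvx hvy hev hP hodd
  refine hcls.nop a b n P (hP.congr fun c hc' d hd => ?_) hodd
  have e : ∀ s t, G.Adj v s → G.Adj v t → ((res G {w | G.Adj v w}).Adj s t ↔ G.Adj s t) :=
    fun s t hs ht => ⟨fun h => h.2.2, fun h => ⟨hs, ht, h⟩⟩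
  rw [ctr_adj, ctr_adj, e c d (hc c hc') (hc d hd), e y d hvy (hc d hd), e c y (hc c hc') hvy]

end Pool.Agent.H52.ER2
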