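import Pool.Agent.H48.ER.All
import Pool.Agent.H48.ER2.Top

/-!
# MP_816b90_co: a good pair of the meet inside of the neighbourhood is a good pair
-/

set_option autoImplicit false

namespace Pool.Agent.H52.ER2

open Pool.Agent.H48.ER

variable {V : Type}

/-- a chordless path through a common neighbour of its ends has length two -/
theorem two_of_mid {G : SimpleGraph V} {n : ℕ} {x y v : V} {R : Set V} (h : IP G n x y R)
    (hxy : x ≠ y) (hv : v ∈ R) (h1 : G.Adj v x) (h2 : G.Adj v y) : n = 2 := by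
  obtain ⟨g, g0, gn, gi, ga, hR⟩ := h
  rw [hR] at hv
  obtain ⟨i, hi, rfl⟩ := hv
  rw [← g0, ga i 0 hi (Nat.zero_le _)] at h1
  rw [← gn, ga i n hi le_rfl] at h2
  have hn : n ≠ 0 := by
    intro e
    subst e
    exact hxy (g0.symm.trans gn)
  omega

/-- adjacency in the meet away from the two vertices -/
theorem mt_adj_of_ne {G : SimpleGraph V} {s t a b : V} (h1 : a ≠ s) (h2 : a ≠ t) (h3 : b ≠ s)
    (h4 : b ≠ t) : (mt G s t).Adj a b ↔ G.Adj a b :=
  ⟨fun h => h.2.2.1, fun h => ⟨h2, h4, h, fun e => absurd e h1, fun e => absurd e h3⟩⟩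

/-- LFM: a good pair of the meet inside of the neighbourhood is a good pair -/
theorem pf_LFM (hCC : Pool.Agent.H48.ER2.T_CC) : T_LFM := by
  intro V G v u x y hG huv _ hvx hvy hux huy hgd
  have hxu : x ≠ u := hux.ne'
  have hyu : y ≠ u := huy.ne'
  have hxv : x ≠ v := hvx.ne'
  have hyv : y ≠ v := hvy.ne'
  obtain ⟨⟨hxy, hna, hpath⟩, hcls⟩ := hgd
  have hev : EvP G x y := by
    refine ⟨hxy, fun h => hna ((mt_adj_of_ne hxv hxu hyv hyu).2 h), ?_⟩
    intro n R hR
    by_cases hv : v ∈ R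
    · rw [two_of_mid hR hxy hv hvx hvy]
      decide
    by_cases hu : u ∈ R
    · rw [two_of_mid hR hxy hu hux huy]
      decide
    · have hne : ∀ a ∈ R, a ≠ v ∧ a ≠ u := fun a ha => ⟨fun e => hv (e ▸ ha), fun e => hu (e ▸ ha)⟩
      exact hpath n R (hR.congr fun a ha b hb =>
        mt_adj_of_ne (hne a ha).1 (hne a ha).2 (hne b hb).1 (hne b hb).2)
  refine ⟨hev, hCC V G x y hG hev ?_⟩
  intro a b n P hP hodd
  obtain ⟨_, _, hcom⟩ := c_W1 V G x y a b n P hG.noh hG.nop hev hP hodd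
  have hv : v ∉ ver P := fun h => hcom v h ⟨hvx.symm, hvy.symm⟩
  have hu : u ∉ ver P := fun h => hcom u h ⟨hux.symm, huy.symm⟩
  have hne : ∀ a ∈ ver P, a ≠ v ∧ a ≠ u := fun a ha =>
    ⟨fun e => hv (e ▸ ha), fun e => hu (e ▸ ha)⟩
  refine hcls.nop a b n P (hP.congr fun c hc d hd => ?_) hodd
  rw [ctr_adj, ctr_adj, mt_adj_of_ne (hne c hc).1 (hne c hc).2 (hne d hd).1 (hne d hd).2,
    mt_adj_of_ne hyv hyu (hne d hd).1 (hne d hd).2, mt_adj_of_ne (hne c hc).1 (hne c hc).2 hyv hyu]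

end Pool.Agent.H52.ER2
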