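import Pool.Agent.H48.ER.Defs

/-!
# MP_816b90_co: the class of the conjecture, meets, tame vertices, good pairs. Definitions.

As in `Pool.Agent.H48.ER` the vertex type is fixed; deleted vertices are isolated vertices. By the
meet lemma an anticonnected set can be replaced by one vertex `v`, which plays its role in all
definitions below.
-/

set_option autoImplicit false

namespace Pool.Agent.H52.ER2

open Pool.Agent.H48.ER

variable {V : Type}

/-- `G` has no antihole with at least five vertices: the antihole consists of the vertex `c` and of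
the path `R` of the complement -/
def NAH (G : SimpleGraph V) : Prop :=
  ∀ (n : ℕ) (u v c : V) (R : Set V), IP Gᶜ n u v R → 3 ≤ n → c ∉ R → Gᶜ.Adj c u → Gᶜ.Adj c v →
    ¬ ∀ w ∈ R, Gᶜ.Adj c w → w = u ∨ w = v

/-- the class: no odd hole, no odd prism, no antihole -/
structure Cls (G : SimpleGraph V) : Prop where
  noh : NOH G
  nop : NOP G
  nah : NAH G

/-- a clique -/
def Clq (G : SimpleGraph V) (S : Set V) : Prop := ∀ u ∈ S, ∀ w ∈ S, u ≠ w → G.Adj u w

/-- no clique with four vertices -/
def K4F (G : SimpleGraph V) : Prop :=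
  ∀ a b c d : V, G.Adj a b → G.Adj a c → G.Adj a d → G.Adj b c → G.Adj b d → ¬ G.Adj c d

/-- the meet of the vertices `s`, `t`: the vertex `t` is deleted, the vertex `s` keeps the common
neighbours of `s` and `t` -/
def mt (G : SimpleGraph V) (s t : V) : SimpleGraph V where
  Adj a b := a ≠ t ∧ b ≠ t ∧ G.Adj a b ∧ (a = s → G.Adj t b) ∧ (b = s → G.Adj t a)
  symm := ⟨fun _ _ h => ⟨h.2.1, h.1, h.2.2.1.symm, h.2.2.2.2, h.2.2.2.1⟩⟩
  loopless := ⟨fun _ h => G.loopless.irrefl _ h.2.2.1⟩

/-- the edges inside of `C` -/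
def res (G : SimpleGraph V) (C : Set V) : SimpleGraph V where
  Adj a b := a ∈ C ∧ b ∈ C ∧ G.Adj a b
  symm := ⟨fun _ _ h => ⟨h.2.1, h.1, h.2.2.symm⟩⟩
  loopless := ⟨fun _ h => G.loopless.irrefl _ h.2.2⟩

/-- `v` is not a corner of a prism -/
def NCo (G : SimpleGraph V) (v : V) : Prop :=
  ∀ (a b : Fin 3 → V) (n : Fin 3 → ℕ) (P : Fin 3 → Set V), Prism G a b n P →
    ∀ i, v ≠ a i ∧ v ≠ b i

/-- the common neighbours of `v` and of a vertex which is not adjacent to `v` are a clique -/
def F1 (G : SimpleGraph V) (v : V) : Prop :=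
  ∀ u, u ≠ v → ¬ G.Adj u v → ∀ x y, G.Adj v x → G.Adj v y → G.Adj u x → G.Adj u y → x ≠ y →
    G.Adj x y

/-- no prism which avoids `v` has two corners of each triangle in the neighbourhood of `v` -/
def Tame (G : SimpleGraph V) (v : V) : Prop :=
  ∀ (a b : Fin 3 → V) (n : Fin 3 → ℕ) (P : Fin 3 → Set V), Prism G a b n P → v ∉ ver P →
    ¬ ((∃ i j, i ≠ j ∧ G.Adj v (a i) ∧ G.Adj v (a j)) ∧
      ∃ i j, i ≠ j ∧ G.Adj v (b i) ∧ G.Adj v (b j))

/-- a good pair: an even pair whose contraction is in the class -/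
def Gd (G : SimpleGraph V) (x y : V) : Prop := EvP G x y ∧ Cls (ctr G x y)

/-- `R` is an outer path from `x` to `y` with `n` edges: the ends are neighbours of `v`, the
interior vertices are not -/
structure OutP (G : SimpleGraph V) (v : V) (n : ℕ) (x y : V) (R : Set V) : Prop where
  ip : IP G n x y R
  two : 2 ≤ n
  notMem : v ∉ R
  left : G.Adj v x
  right : G.Adj v y
  int : ∀ w ∈ R, G.Adj v w → w = x ∨ w = y

/-- there is no outer path -/
def NOut (G : SimpleGraph V) (v : V) : Prop :=
  ∀ (n : ℕ) (x y : V) (R : Set V), ¬ OutP G v n x y R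

/-- MEET: the class is closed under meets of nonadjacent vertices -/
def T_MEET : Prop := ∀ (V : Type) (G : SimpleGraph V) (s t : V), Cls G → s ≠ t → ¬ G.Adj s t →
  Cls (mt G s t)

/-- INH: a meet with `v` is not a corner and tame -/
def T_INH : Prop := ∀ (V : Type) (G : SimpleGraph V) (v u : V), Cls G → NCo G v → Tame G v →
  u ≠ v → ¬ G.Adj u v → NCo (mt G v u) v ∧ Tame (mt G v u) v

/-- G2: without outer path a good pair of the neighbourhood is a good pair -/
def T_G2 : Prop := ∀ (V : Type) [Finite V] (G : SimpleGraph V) (v x y : V), Cls G → NOut G v →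
  G.Adj v x → G.Adj v y → Gd (res G {w | G.Adj v w}) x y → Gd G x y

/-- CNA: contraction of an even pair creates no antihole with at least seven vertices -/
def T_CNA : Prop := ∀ (V : Type) (G : SimpleGraph V) (x y : V), Cls G → EvP G x y →
  ∀ (n : ℕ) (u v c : V) (R : Set V), IP (ctr G x y)ᶜ n u v R → 5 ≤ n → c ∉ R →
    (ctr G x y)ᶜ.Adj c u → (ctr G x y)ᶜ.Adj c v →
    ¬ ∀ w ∈ R, (ctr G x y)ᶜ.Adj c w → w = u ∨ w = v

/-- LFM: a good pair of the meet inside of the neighbourhood is a good pair -/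
def T_LFM : Prop := ∀ (V : Type) (G : SimpleGraph V) (v u x y : V), Cls G → u ≠ v →
  ¬ G.Adj u v → G.Adj v x → G.Adj v y → G.Adj u x → G.Adj u y → Gd (mt G v u) x y → Gd G x y

end Pool.Agent.H52.ER2
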