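import Pool.Agent.H48.ER.All
import Pool.Agent.H52.ER2.Base

/-!
# MP_816b90_co: contraction of an even pair creates no antihole with at least seven vertices
-/

set_option autoImplicit false

namespace Pool.Agent.H52.ER2

open Pool.Agent.H48.ER

variable {V : Type}

/-- a vertex and a segment of a path of the complement -/
theorem nah_core {G : SimpleGraph V} (hG : NAH G) {n : ℕ} {g : ℕ → V}
    (gi : ∀ i j, i ≤ n → j ≤ n → g i = g j → i = j)
    (ga : ∀ i j, i ≤ n → j ≤ n → (Gᶜ.Adj (g i) (g j) ↔ i + 1 = j ∨ j + 1 = i))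
    {p : V} (hp : ∀ i, i ≤ n → g i ≠ p) {s t : ℕ} (hst : s + 3 ≤ t) (htn : t ≤ n)
    (h1 : ¬ G.Adj p (g s)) (h2 : ¬ G.Adj p (g t)) (h3 : ∀ k, s < k → k < t → G.Adj p (g k)) :
    False := by
  refine hG (t - s) (g s) (g t) p {v | ∃ j, j ≤ t - s ∧ g (s + j) = v}
    ⟨fun j => g (s + j), rfl, ?_, ?_, ?_, rfl⟩ (by omega) ?_ ?_ ?_ ?_
  · show g (s + (t - s)) = g t
    congr 1
    omega
  · intro i j hi hj e
    have := gi _ _ (by omega) (by omega) e
    omega
  · intro i j hi hj
    show Gᶜ.Adj (g (s + i)) (g (s + j)) ↔ _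
    rw [ga _ _ (by omega) (by omega)]
    omega
  · rintro ⟨j, hj, e⟩
    exact hp _ (by omega) e
  · exact (SimpleGraph.compl_adj _ _ _).2 ⟨fun e => hp s (by omega) e.symm, h1⟩
  · exact (SimpleGraph.compl_adj _ _ _).2 ⟨fun e => hp t htn e.symm, h2⟩
  · rintro _ ⟨j, hj, rfl⟩ hadj
    have hna := ((SimpleGraph.compl_adj _ _ _).1 hadj).2
    by_cases e1 : j = 0
    · left
      rw [e1]
      rfl
    · by_cases e2 : j = t - s
      · right
        rw [e2]
        congr 1
        omega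
      · exact absurd (h3 (s + j) (by omega) (by omega)) hna

/-- the antihole through the new vertex -/
theorem cna_core {G : SimpleGraph V} {x y : V} (hG : Cls G) (hxy : EvP G x y) {n : ℕ} {g : ℕ → V}
    (gi : ∀ i j, i ≤ n → j ≤ n → g i = g j → i = j)
    (ga : ∀ i j, i ≤ n → j ≤ n → (Gᶜ.Adj (g i) (g j) ↔ i + 1 = j ∨ j + 1 = i))
    (hx : ∀ i, i ≤ n → g i ≠ x) (hy : ∀ i, i ≤ n → g i ≠ y) (hn : 5 ≤ n)
    (x0 : ¬ G.Adj x (g 0)) (xn : ¬ G.Adj x (g n)) (y0 : ¬ G.Adj y (g 0)) (yn : ¬ G.Adj y (g n))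
    (hk : ∀ k, 0 < k → k < n → G.Adj x (g k) ∨ G.Adj y (g k)) : False := by
  have key : ∀ i j, i ≤ n → j ≤ n → G.Adj x (g i) → ¬ G.Adj y (g i) → G.Adj y (g j) →
      ¬ G.Adj x (g j) → i + 1 = j ∨ j + 1 = i := by
    intro i j hi hj h1 h2 h3 h4
    by_contra hne
    have hij : i ≠ j := fun e => h2 (e ▸ h3)
    have hgne : g i ≠ g j := fun e => hij (gi i j hi hj e)
    have hadj : G.Adj (g i) (g j) := by
      by_contra h
      exact hne ((ga i j hi hj).1 ((SimpleGraph.compl_adj _ _ _).2 ⟨hgne, h⟩))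
    have p1 : IP G 1 (g j) y {g j, y} := IP.edge h3.symm
    have p2 : IP G 2 (g i) y (insert (g i) {g j, y}) := by
      refine p1.cons ?_ ?_
      · rintro (h | h)
        · exact hgne h
        · exact hy i hi h
      · rintro w (rfl | h)
        · exact ⟨fun _ => rfl, fun _ => hadj⟩
        · rw [Set.mem_singleton_iff.1 h]
          constructor
          · intro h5
            exact absurd h5.symm h2
          · intro h5
            exact absurd h5.symm (hy j hj)
    have p3 : IP G 3 x y (insert x (insert (g i) {g j, y})) := by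
      refine p2.cons ?_ ?_
      · rintro (h | h | h)
        · exact hx i hi h.symm
        · exact hx j hj h.symm
        · exact hxy.1 h
      · rintro w (rfl | rfl | h)
        · exact ⟨fun _ => rfl, fun _ => h1⟩
        · exact ⟨fun h => absurd h h4, fun h => absurd h.symm hgne⟩
        · rw [Set.mem_singleton_iff.1 h]
          exact ⟨fun h => absurd h hxy.2.1, fun h => absurd h.symm (hy i hi)⟩
    have := hxy.2.2 3 _ p3
    exact absurd this (by decide)
  -- an index which is not in `X`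
  have hj : ∃ j, 0 < j ∧ j < n ∧ ¬ G.Adj x (g j) := by
    by_contra h
    push Not at h
    exact nah_core hG.nah gi ga hx (s := 0) (t := n) (by omega) le_rfl x0 xn h
  have hi : ∃ i, 0 < i ∧ i < n ∧ ¬ G.Adj y (g i) := by
    by_contra h
    push Not at h
    exact nah_core hG.nah gi ga hy (s := 0) (t := n) (by omega) le_rfl y0 yn h
  obtain ⟨j, j0, jn, hj⟩ := hj
  obtain ⟨i, i0, iN, hi⟩ := hi
  have hyj : G.Adj y (g j) := (hk j j0 jn).resolve_left hj
  have hxi : G.Adj x (g i) := (hk i i0 iN).resolve_right hi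
  have hij := key i j iN.le jn.le hxi hi hyj hj
  by_cases hA : ∀ k, 0 < k → k < n → k ≠ i → G.Adj y (g k)
  · by_cases h3 : 3 ≤ i
    · exact nah_core hG.nah gi ga hy (s := 0) (t := i) (by omega) iN.le y0 hi
        fun k k0 ki => hA k k0 (by omega) (by omega)
    · exact nah_core hG.nah gi ga hy (s := i) (t := n) (by omega) le_rfl hi yn
        fun k k0 ki => hA k (by omega) ki (by omega)
  · push Not at hA
    obtain ⟨i', i0', in', hne, hi'⟩ := hA
    have hxi' : G.Adj x (g i') := (hk i' i0' in').resolve_right hi'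
    have hij' := key i' j in'.le jn.le hxi' hi' hyj hj
    have hB : ∀ k, 0 < k → k < n → k ≠ j → G.Adj x (g k) := by
      intro k k0 kn hkj
      by_contra hk1
      have hyk : G.Adj y (g k) := (hk k k0 kn).resolve_left hk1
      have e1 := key i k iN.le kn.le hxi hi hyk hk1
      have e2 := key i' k in'.le kn.le hxi' hi' hyk hk1
      omega
    by_cases h3 : 3 ≤ j
    · exact nah_core hG.nah gi ga hx (s := 0) (t := j) (by omega) jn.le x0 hj
        fun k k0 ki => hB k k0 (by omega) (by omega)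
    · exact nah_core hG.nah gi ga hx (s := j) (t := n) (by omega) le_rfl hj xn
        fun k k0 ki => hB k (by omega) ki (by omega)

/-- CNA: contraction of an even pair creates no antihole with at least seven vertices -/
theorem pf_CNA : T_CNA := by
  intro V G x y hG hxy
  -- the case that the apex is the new vertex
  have main : ∀ (n : ℕ) (u v : V) (R : Set V), IP (ctr G x y)ᶜ n u v R → 5 ≤ n → x ∉ R →
      y ∉ R → (ctr G x y)ᶜ.Adj x u → (ctr G x y)ᶜ.Adj x v →
      ¬ ∀ w ∈ R, (ctr G x y)ᶜ.Adj x w → w = u ∨ w = v := by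
    intro n u v R hR hn hxR hyR hxu hxv hint
    obtain ⟨g, g0, gn, gi, ga, hRe⟩ := hR
    have hgR : ∀ i, i ≤ n → g i ∈ R := fun i hi => by rw [hRe]; exact ⟨i, hi, rfl⟩
    have hx : ∀ i, i ≤ n → g i ≠ x := fun i hi e => hxR (e ▸ hgR i hi)
    have hy : ∀ i, i ≤ n → g i ≠ y := fun i hi e => hyR (e ▸ hgR i hi)
    have ga' : ∀ i j, i ≤ n → j ≤ n → (Gᶜ.Adj (g i) (g j) ↔ i + 1 = j ∨ j + 1 = i) := by
      intro i j hi hj
      rw [← ga i j hi hj, SimpleGraph.compl_adj, SimpleGraph.compl_adj,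
        ctr_adj_of_ne (hx i hi) (hy i hi) (hx j hj) (hy j hj)]
    have hl : ∀ i, i ≤ n → ((ctr G x y).Adj x (g i) ↔ G.Adj x (g i) ∨ G.Adj y (g i)) :=
      fun i hi => ctr_adj_left (hx i hi) (hy i hi) hxy.1
    have e0 : ¬ (ctr G x y).Adj x (g 0) := by
      rw [g0]
      exact ((SimpleGraph.compl_adj _ _ _).1 hxu).2
    have en : ¬ (ctr G x y).Adj x (g n) := by
      rw [gn]
      exact ((SimpleGraph.compl_adj _ _ _).1 hxv).2
    rw [hl 0 (Nat.zero_le _)] at e0
    rw [hl n le_rfl] at en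
    push Not at e0 en
    refine cna_core hG hxy gi ga' hx hy hn e0.1 en.1 e0.2 en.2 ?_
    intro k k0 kn
    rw [← hl k kn.le]
    by_contra h
    have h1 := hint (g k) (hgR k kn.le)
      ((SimpleGraph.compl_adj _ _ _).2 ⟨(hx k kn.le).symm, h⟩)
    rcases h1 with h1 | h1
    · have := gi k 0 kn.le (Nat.zero_le _) (h1.trans g0.symm)
      omega
    · have := gi k n kn.le le_rfl (h1.trans gn.symm)
      omega
  -- every vertex of the antihole has a non-neighbour in the complement
  intro n u v c R hR hn hcR hcu hcv hint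
  have hy1 : ∀ (u v c : V) (R : Set V), IP (ctr G x y)ᶜ n u v R → c ∉ R →
      (∀ w ∈ R, (ctr G x y)ᶜ.Adj c w → w = u ∨ w = v) → c ≠ y := by
    intro u v c R hR hcR hint e
    subst e
    obtain ⟨g, g0, gn, gi, ga, hRe⟩ := hR
    have h1R : g 1 ∈ R := by rw [hRe]; exact ⟨1, by omega, rfl⟩
    have h2 : (ctr G x c)ᶜ.Adj c (g 1) :=
      (SimpleGraph.compl_adj _ _ _).2 ⟨fun e => hcR (e ▸ h1R), ctr_not_adj⟩
    rcases hint _ h1R h2 with h | h
    · have := gi 1 0 (by omega) (by omega) (h.trans g0.symm)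
      omega
    · have := gi 1 n (by omega) (by omega) (h.trans gn.symm)
      omega
  have hyc : c ≠ y := hy1 u v c R hR hcR hint
  have hyR : y ∉ R := by
    intro hyR
    obtain ⟨u', v', R', h1, h2, _, _, _, h6⟩ :=
      c_ROT V (ctr G x y)ᶜ n u v c R hR (by omega) hcR hcu hcv hint y hyR
    exact hy1 u' v' y R' h1 h2 h6 rfl
  by_cases hxc : c = x
  · subst hxc
    exact main n u v R hR hn hcR hyR hcu hcv hint
  by_cases hxR : x ∈ R
  · obtain ⟨u', v', R', h1, h2, h3, h4, h5, h6⟩ :=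
      c_ROT V (ctr G x y)ᶜ n u v c R hR (by omega) hcR hcu hcv hint x hxR
    have hyR' : y ∉ R' := by
      intro h
      have : y ∈ insert c R := h3 ▸ Or.inr h
      rcases this with h | h
      · exact hyc h.symm
      · exact hyR h
    exact main n u' v' R' h1 hn h2 hyR' h4 h5 h6
  · -- the antihole avoids both vertices
    have hne : ∀ a ∈ R, a ≠ x ∧ a ≠ y := fun a ha =>
      ⟨fun e => hxR (e ▸ ha), fun e => hyR (e ▸ ha)⟩
    have hR' : IP Gᶜ n u v R := hR.congr fun a ha b hb => by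
      rw [SimpleGraph.compl_adj, SimpleGraph.compl_adj,
        ctr_adj_of_ne (hne a ha).1 (hne a ha).2 (hne b hb).1 (hne b hb).2]
    have hadj : ∀ w ∈ R, (Gᶜ.Adj c w ↔ (ctr G x y)ᶜ.Adj c w) := by
      intro w hw
      rw [SimpleGraph.compl_adj, SimpleGraph.compl_adj,
        ctr_adj_of_ne hxc hyc (hne w hw).1 (hne w hw).2]
    exact hG.nah n u v c R hR' (by omega) hcR ((hadj u hR.left_mem).2 hcu)
      ((hadj v hR.right_mem).2 hcv) fun w hw h => hint w hw ((hadj w hw).1 h)

end Pool.Agent.H52.ER2
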